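import Pool.Agent.H69.GN.Stm2

set_option autoImplicit false

namespace Pool.Agent.H40.GN

open Finset Pool.Agent.H69.GN

lemma par_unique {V : Type} (G : SimpleGraph V) (hG : G.IsAcyclic) (u v : V)
    (huv : G.Reachable u v) :
    ∃ x : V, ∀ w, G.Adj v w → G.dist u w ≤ G.dist u v → w = x := by
  obtain ⟨p, hp, hpl⟩ := huv.exists_path_of_dist
  refine ⟨p.penultimate, ?_⟩
  intro w hadj hle
  obtain ⟨q, hq, hql⟩ := (huv.trans hadj.reachable).exists_path_of_dist
  have hne := hG.dist_ne_of_adj hadj huv
  have hw : w ∈ p.support := by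
    apply hG.mem_support_of_ne_mem_support_of_adj_of_isPath hp hq hadj
    intro hv
    have h1 := hG.path_concat hp hq hadj hv
    have h2 : q.length = p.length + 1 := by
      rw [h1, SimpleGraph.Walk.length_concat]
    omega
  exact hG.eq_penultimate_of_adj_end hp hadj hw

theorem t_ORD : S_ORD := by
  classical
  intro V _ G hG
  let root : V → V := fun v => Quot.out (G.connectedComponentMk v)
  have hroot : ∀ v, G.Reachable (root v) v := fun v =>
    SimpleGraph.ConnectedComponent.exact (Quot.out_eq (G.connectedComponentMk v))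
  have hrootadj : ∀ v w, G.Adj v w → root v = root w := by
    intro v w h
    show Quot.out (G.connectedComponentMk v) = Quot.out (G.connectedComponentMk w)
    rw [SimpleGraph.ConnectedComponent.sound h.reachable]
  let dep : V → ℕ := fun v => G.dist (root v) v
  let eF := Fintype.equivFin V
  let g : Fin (Fintype.card V) → ℕᵒᵈ := fun i => OrderDual.toDual (dep (eF.symm i))
  let σ := Tuple.sort g
  have hmono : ∀ i j, i < j → dep (eF.symm (σ j)) ≤ dep (eF.symm (σ i)) := by
    intro i j hij
    have h := Tuple.monotone_sort g hij.le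
    exact h
  have huniq : ∀ i j j' : Fin (Fintype.card V), i < j → i < j' →
      G.Adj (eF.symm (σ i)) (eF.symm (σ j)) → G.Adj (eF.symm (σ i)) (eF.symm (σ j')) → j = j' := by
    intro i j j' hij hij' h h'
    obtain ⟨x, hx⟩ := par_unique G hG (root (eF.symm (σ i))) (eF.symm (σ i)) (hroot _)
    have e1 : G.dist (root (eF.symm (σ i))) (eF.symm (σ j)) ≤
        G.dist (root (eF.symm (σ i))) (eF.symm (σ i)) := by
      have h1 := hmono i j hij
      show _ ≤ dep (eF.symm (σ i))
      rw [hrootadj _ _ h]
      exact h1
    have e2 : G.dist (root (eF.symm (σ i))) (eF.symm (σ j')) ≤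
        G.dist (root (eF.symm (σ i))) (eF.symm (σ i)) := by
      have h1 := hmono i j' hij'
      show _ ≤ dep (eF.symm (σ i))
      rw [hrootadj _ _ h']
      exact h1
    have h3 := (hx _ h e1).trans (hx _ h' e2).symm
    exact σ.injective (eF.symm.injective h3)
  let par : Fin (Fintype.card V) → Fin (Fintype.card V + 1) := fun i =>
    if h : ∃ j, i < j ∧ G.Adj (eF.symm (σ i)) (eF.symm (σ j)) then h.choose.castSucc
    else Fin.last _
  refine ⟨Fintype.card V, eF.trans σ.symm, par, ?_, ?_⟩
  · intro i
    by_cases h : ∃ j, i < j ∧ G.Adj (eF.symm (σ i)) (eF.symm (σ j))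
    · have e : par i = h.choose.castSucc := dif_pos h
      rw [e]
      exact Fin.castSucc_lt_castSucc_iff.2 h.choose_spec.1
    · have e : par i = Fin.last _ := dif_neg h
      rw [e]
      exact Fin.castSucc_lt_last i
  · intro i j hij
    show G.Adj (eF.symm (σ i)) (eF.symm (σ j)) ↔ par i = j.castSucc
    constructor
    · intro hadj
      have h : ∃ j, i < j ∧ G.Adj (eF.symm (σ i)) (eF.symm (σ j)) := ⟨j, hij, hadj⟩
      have e : par i = h.choose.castSucc := dif_pos h
      rw [e, huniq i h.choose j h.choose_spec.1 hij h.choose_spec.2 hadj]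
    · intro hpar
      by_cases h : ∃ j, i < j ∧ G.Adj (eF.symm (σ i)) (eF.symm (σ j))
      · have e : par i = h.choose.castSucc := dif_pos h
        rw [e] at hpar
        have := Fin.castSucc_injective _ hpar
        rw [← this]
        exact h.choose_spec.2
      · have e : par i = Fin.last _ := dif_neg h
        rw [e] at hpar
        exact absurd hpar.symm (Fin.castSucc_lt_last j).ne

end Pool.Agent.H40.GN
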